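import Pool.Agent.U8.OD.Deg

set_option autoImplicit false
set_option linter.all false

open MvPolynomial

namespace Pool.Agent.U8.OD

section lin

variable {m : ℕ} {R : Type*} [CommRing R]

/-- linear forms -/
noncomputable def lin (l : Fin (m + 1) → R) : MvPolynomial (Fin (m + 1)) R := ∑ j, C (l j) * X j

lemma lin_homog (l : Fin (m + 1) → R) : (lin l).IsHomogeneous 1 :=
  IsHomogeneous.sum _ _ _ fun j _ => isHomogeneous_C_mul_X _ _

lemma subst_lin (g : Matrix (Fin (m + 1)) (Fin (m + 1)) R) (l : Fin (m + 1) → R) :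
    subst g (lin l) = lin (Matrix.vecMul l g) := by
  simp only [lin, map_sum, map_mul, subst_C, subst_X, Finset.mul_sum, Matrix.vecMul, dotProduct,
    Finset.sum_mul]
  rw [Finset.sum_comm]
  refine Finset.sum_congr rfl fun j _ => Finset.sum_congr rfl fun i _ => ?_
  ring

lemma eval_lin (l y : Fin (m + 1) → R) : eval y (lin l) = ∑ j, l j * y j := by
  simp [lin]

lemma ax_lin (l : Fin (m + 1) → R) : ax (lin l) = Polynomial.C (l 0) * Polynomial.X := by
  rw [lin, map_sum, Finset.sum_eq_single 0]
  · simp [ax]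
  · intro j _ hj
    simp [ax, hj]
  · intro h; exact absurd (Finset.mem_univ _) h

lemma lin_unit (i : Fin (m + 1)) (l : Fin (m + 1) → R) (h : ∀ j, l j = if i = j then 1 else 0) :
    lin l = X i := by
  rw [lin, Finset.sum_eq_single i]
  · rw [h i, if_pos rfl, C_1, one_mul]
  · intro j _ hj
    rw [h j, if_neg (Ne.symm hj), C_0, zero_mul]
  · intro h; exact absurd (Finset.mem_univ _) h

end lin

section arr

variable {m n : ℕ} {κ : Type*} [Field κ]

/-- the hyperplanes with indices `e` and the last one -/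
def ee (n : ℕ) {m : ℕ} (i₀ : Fin (m + n + 1)) (e : Fin m → Fin (m + n)) :
    Fin (m + 1) → Fin (m + n + 1) :=
  Fin.cons i₀ fun i => (e i).castSucc

lemma ee_inj {i₀ : Fin (m + n + 1)} {e : Fin m → Fin (m + n)} (he : Function.Injective e)
    (h : ∀ i, (e i).castSucc ≠ i₀) : Function.Injective (ee n i₀ e) := by
  rw [ee, Fin.cons_injective_iff]
  refine ⟨?_, fun i j hij => he (Fin.castSucc_injective _ hij)⟩
  rintro ⟨i, hi⟩
  exact h i hi

/-- rows of the chosen linear forms -/
def rows (l : Fin (m + n + 1) → Fin (m + 1) → κ) (i₀ : Fin (m + n + 1)) (e : Fin m → Fin (m + n)) :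
    Matrix (Fin (m + 1)) (Fin (m + 1)) κ :=
  Matrix.of fun i j => l (ee n i₀ e i) j

variable (l : Fin (m + n + 1) → Fin (m + 1) → κ)
  (hl : ∀ e : Fin (m + 1) → Fin (m + n + 1), Function.Injective e →
    (Matrix.of fun i j => l (e i) j).det ≠ 0)

/-- the coordinate change -/
noncomputable def gg (e : Fin m → Fin (m + n)) : Matrix (Fin (m + 1)) (Fin (m + 1)) κ :=
  (rows l (Fin.last _) e)⁻¹

include hl

lemma rows_gg {e : Fin m → Fin (m + n)} (he : Function.Injective e) :
    rows l (Fin.last _) e * gg l e = 1 := by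
  refine Matrix.mul_nonsing_inv _ (isUnit_iff_ne_zero.2 (hl _ (ee_inj he fun i => ?_)))
  exact Fin.castSucc_ne_last _

lemma gg_last {e : Fin m → Fin (m + n)} (he : Function.Injective e) (j : Fin (m + 1)) :
    Matrix.vecMul (l (Fin.last _)) (gg l e) j = if (0 : Fin (m + 1)) = j then 1 else 0 := by
  have h := congrFun (congrFun (rows_gg l hl he) 0) j
  rw [Matrix.mul_apply, Matrix.one_apply] at h
  rw [← h]
  rfl

lemma gg_mem {e : Fin m → Fin (m + n)} (he : Function.Injective e) (i : Fin m) (j : Fin (m + 1)) :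
    Matrix.vecMul (l (e i).castSucc) (gg l e) j = if i.succ = j then 1 else 0 := by
  have h := congrFun (congrFun (rows_gg l hl he) i.succ) j
  rw [Matrix.mul_apply, Matrix.one_apply] at h
  rw [← h]
  rfl

lemma gg_det {e : Fin m → Fin (m + n)} (he : Function.Injective e) : (gg l e).det ≠ 0 := by
  have h := congrArg Matrix.det (rows_gg l hl he)
  rw [Matrix.det_mul, Matrix.det_one] at h
  exact right_ne_zero_of_mul_eq_one h

lemma gg_not_mem {e : Fin m → Fin (m + n)} (he : Function.Injective e) (i : Fin (m + n))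
    (hi : ∀ r, e r ≠ i) : Matrix.vecMul (l i.castSucc) (gg l e) 0 ≠ 0 := by
  intro h0
  have h1 : (rows l i.castSucc e).det ≠ 0 :=
    hl _ (ee_inj he fun r h => hi r (Fin.castSucc_injective _ h))
  apply h1
  rw [← Matrix.exists_mulVec_eq_zero_iff]
  refine ⟨fun r => gg l e r 0, ?_, ?_⟩
  · intro h
    have h2 := gg_last l hl he 0
    rw [if_pos rfl] at h2
    have h3 : Matrix.vecMul (l (Fin.last _)) (gg l e) 0 = 0 := by
      rw [Matrix.vecMul, dotProduct]
      refine Finset.sum_eq_zero fun r _ => ?_
      have : gg l e r 0 = 0 := congrFun h r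
      rw [this, mul_zero]
    rw [h3] at h2
    exact zero_ne_one h2
  · ext r
    refine Fin.cases ?_ (fun r => ?_) r
    · exact h0
    · have h2 := gg_mem l hl he r 0
      rw [if_neg (Fin.succ_ne_zero r)] at h2
      exact h2

lemma crossing_arr {e : Fin m → Fin (m + n)} (he : Function.Injective e) :
    Crossing n (∏ i, lin (l i)) (gg l e) := by
  classical
  set T : Finset (Fin (m + n)) := (Finset.univ.image e)ᶜ with hT
  have hTc : T.card = n := by
    rw [hT, Finset.card_compl, Finset.card_image_of_injective _ he]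
    simp
  have hTe : ∀ i ∈ T, ∀ r, e r ≠ i := by
    intro i hi r hr
    rw [hT, Finset.mem_compl] at hi
    exact hi (hr ▸ Finset.mem_image_of_mem _ (Finset.mem_univ _))
  set H : MvPolynomial (Fin (m + 1)) κ := ∏ i ∈ T, lin (Matrix.vecMul (l i.castSucc) (gg l e)) with hH
  set one : Fin (m + 1) →₀ ℕ := Finsupp.equivFunOnFinite.symm fun _ => 1 with hone
  have hG : subst (gg l e) (∏ i, lin (l i)) = monomial one 1 * H := by
    rw [map_prod, Fin.prod_univ_castSucc]
    simp only [subst_lin]
    rw [lin_unit 0 _ (gg_last l hl he)]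
    rw [← Finset.prod_mul_prod_compl (Finset.univ.image e), ← hT, ← hH,
      Finset.prod_image (fun i _ j _ hij => he hij)]
    have h1 : ∀ r : Fin m, lin (Matrix.vecMul (l (e r).castSucc) (gg l e)) = X r.succ :=
      fun r => lin_unit _ _ (gg_mem l hl he r)
    simp only [h1]
    have h2 : (monomial one 1 : MvPolynomial (Fin (m + 1)) κ) = (∏ r : Fin m, X r.succ) * X 0 := by
      rw [monomial_eq, Finsupp.prod_fintype _ _ (fun i => by simp), Fin.prod_univ_succ]
      simp [hone, mul_comm]
    rw [h2]
    ring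
  refine ⟨gg_det l hl he, fun _ => 1, ∏ i ∈ T, Matrix.vecMul (l i.castSucc) (gg l e) 0, ?_, ?_⟩
  · exact Finset.prod_ne_zero_iff.2 fun i hi => gg_not_mem l hl he i (hTe i hi)
  · intro a ha
    have ha' : ∑ i : Fin m, a i.succ ≤ m := by simpa using ha
    rw [hG, coeff_monomial_mul', one_mul]
    by_cases h1 : one ≤ a
    · rw [if_pos h1]
      have h2 : ∀ i : Fin m, a i.succ = 1 := by
        by_contra hne
        push Not at hne
        obtain ⟨i, hi⟩ := hne
        have h3 : ∑ i : Fin m, 1 < ∑ i : Fin m, a i.succ := by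
          refine Finset.sum_lt_sum (fun r _ => ?_) ⟨i, Finset.mem_univ _, ?_⟩
          · exact h1 r.succ
          · have := h1 i.succ
            have h4 : one i.succ = 1 := rfl
            omega
        simp at h3
        omega
      have h3 : a - one = Finsupp.single 0 (a 0 - 1) := by
        ext r
        refine Fin.cases ?_ (fun r => ?_) r
        · simp [hone]
        · simp [hone, h2, Finsupp.single_apply, (Fin.succ_ne_zero _).symm]
      rw [h3, ← ax_coeff, hH, map_prod]
      simp only [ax_lin]
      rw [Finset.prod_mul_distrib, Finset.prod_const, hTc, ← map_prod, Polynomial.coeff_C_mul_X_pow]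
      have h4 : 1 ≤ a 0 := h1 0
      by_cases h5 : a = expo m n
      · rw [if_pos h5, if_pos]
        rw [h5]; simp
      · rw [if_neg h5, if_neg]
        intro h6
        apply h5
        ext r
        refine Fin.cases ?_ (fun r => ?_) r
        · rw [expo_zero]; omega
        · rw [expo_succ]; exact h2 r
    · rw [if_neg h1, if_neg]
      rintro rfl
      apply h1
      intro r
      refine Fin.cases ?_ (fun r => ?_) r
      · rw [expo_zero]; simp [hone]
      · rw [expo_succ]; simp [hone]

/-- a union of hyperplanes in general position is totally degenerate -/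
theorem totDeg_arr : TotDeg n (∏ i, lin (l i)) := by
  classical
  intro P hP hev
  let PJ : Type := ↥(Finset.powersetCard m (Finset.univ : Finset (Fin (m + n))))
  have hJ : ∀ J : PJ, (J : Finset (Fin (m + n))).card = m := fun J =>
    (Finset.mem_powersetCard.1 J.2).2
  let e : PJ → Fin m → Fin (m + n) := fun J => (J : Finset (Fin (m + n))).orderEmbOfFin (hJ J)
  have he : ∀ J, Function.Injective (e J) := fun J =>
    ((J : Finset (Fin (m + n))).orderEmbOfFin (hJ J)).injective
  have hrange : ∀ J : PJ, ∀ i, (∃ r, e J r = i) ↔ i ∈ (J : Finset (Fin (m + n))) := by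
    intro J i
    have := Finset.range_orderEmbOfFin (J : Finset (Fin (m + n))) (hJ J)
    have h2 : i ∈ Set.range (e J) ↔ i ∈ ((J : Finset (Fin (m + n))) : Set (Fin (m + n))) := by
      rw [← this]
    simpa using h2
  let nu : PJ → Fin (m + 1) → κ := fun J i => gg l (e J) i 0
  let V : Matrix PJ (Idx m n) κ := Matrix.of fun J v => ∏ i, nu J i ^ (v : Fin (m + 1) →₀ ℕ) i
  have hV : ∀ x J, V.mulVecLin x J = eval (nu J) (poly x) := by
    intro x J
    rw [eval_poly, Matrix.mulVecLin_apply, Matrix.mulVec, dotProduct]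
    refine Finset.sum_congr rfl fun v _ => ?_
    rw [mul_comm]; rfl
  let Q : PJ → MvPolynomial (Fin (m + 1)) κ := fun J =>
    ∏ i ∈ (J : Finset (Fin (m + n)))ᶜ, lin (l i.castSucc)
  have hQ : ∀ J, (Q J).IsHomogeneous n := by
    intro J
    have h1 := IsHomogeneous.prod (J : Finset (Fin (m + n)))ᶜ (fun i => lin (l i.castSucc))
      (fun _ => 1) (fun i _ => lin_homog _)
    have h2 : ∑ i ∈ (J : Finset (Fin (m + n)))ᶜ, 1 = n := by
      rw [Finset.sum_const, Finset.card_compl, hJ]
      simp
    rwa [h2] at h1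
  have hQe : ∀ J J', eval (nu J') (Q J) =
      ∏ i ∈ (J : Finset (Fin (m + n)))ᶜ, Matrix.vecMul (l i.castSucc) (gg l (e J')) 0 := by
    intro J J'
    rw [map_prod]
    refine Finset.prod_congr rfl fun i _ => ?_
    rw [eval_lin]; rfl
  have hQ0 : ∀ J J', J ≠ J' → eval (nu J') (Q J) = 0 := by
    intro J J' hne
    rw [hQe]
    have h1 : ¬ ((J' : Finset (Fin (m + n))) ⊆ (J : Finset (Fin (m + n)))) := by
      intro hsub
      apply hne
      apply Subtype.ext
      exact (Finset.eq_of_subset_of_card_le hsub (by rw [hJ, hJ])).symm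
    rw [Finset.not_subset] at h1
    obtain ⟨i, hi, hi'⟩ := h1
    refine Finset.prod_eq_zero (Finset.mem_compl.2 hi') ?_
    obtain ⟨r, hr⟩ := (hrange J' i).2 hi
    rw [← hr, gg_mem l hl (he J'), if_neg (Fin.succ_ne_zero r)]
  have hQ1 : ∀ J, eval (nu J) (Q J) ≠ 0 := by
    intro J
    rw [hQe]
    refine Finset.prod_ne_zero_iff.2 fun i hi => gg_not_mem l hl (he J) i fun r hr => ?_
    exact (Finset.mem_compl.1 hi) ((hrange J i).1 ⟨r, hr⟩)
  have hsurj : Function.Surjective V.mulVecLin := by
    intro y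
    refine ⟨∑ J, (y J / eval (nu J) (Q J)) • fun v : Idx m n =>
      coeff (v : Fin (m + 1) →₀ ℕ) (Q J), ?_⟩
    ext J'
    rw [map_sum, Finset.sum_apply, Finset.sum_eq_single J']
    · rw [map_smul, Pi.smul_apply, hV, ← homog_eq_poly (hQ J'), smul_eq_mul,
        div_mul_cancel₀ _ (hQ1 J')]
    · intro J _ hne
      rw [map_smul, Pi.smul_apply, hV, ← homog_eq_poly (hQ J), hQ0 J J' hne, smul_zero]
    · intro h; exact absurd (Finset.mem_univ _) h
  have hcard : Module.finrank κ (Idx m n → κ) = Module.finrank κ (PJ → κ) := by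
    rw [Module.finrank_fintype_fun_eq_card, Module.finrank_fintype_fun_eq_card]
    rw [Fintype.card_coe, Fintype.card_coe, Finset.card_finsuppAntidiag_nat_eq_choose,
      Finset.card_powersetCard, Finset.card_univ, Finset.card_univ, Fintype.card_fin,
      Fintype.card_fin]
    have : m + 1 + n - 1 = m + n := by omega
    rw [this]
    exact (Nat.choose_symm_add).symm
  have hinj : Function.Injective V.mulVecLin :=
    (LinearMap.injective_iff_surjective_of_finrank_eq_finrank hcard).2 hsurj
  rw [homog_eq_poly hP] at hev ⊢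
  have h0 : (fun v : Idx m n => coeff (v : Fin (m + 1) →₀ ℕ) P) = 0 := by
    apply hinj
    rw [map_zero]
    ext J
    rw [hV]
    exact hev _ (crossing_arr l hl (he J))
  rw [h0]
  simp [poly]

end arr

end Pool.Agent.U8.OD
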