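import Pool.Agent.U8.OD.Sing

set_option autoImplicit false
set_option linter.all false

open MvPolynomial

namespace Pool.Agent.U8.OD

section defs

variable {m : ℕ} {κ : Type*} [Field κ]

/-- `g e_0` is a crossing point of `G = 0` -/
def Crossing (n : ℕ) (G : MvPolynomial (Fin (m + 1)) κ)
    (g : Matrix (Fin (m + 1)) (Fin (m + 1)) κ) : Prop :=
  g.det ≠ 0 ∧ ∃ (w : Fin m → ℕ) (c : κ), c ≠ 0 ∧
    ∀ a : Fin (m + 1) →₀ ℕ, ∑ i : Fin m, w i * a i.succ ≤ ∑ i, w i →
    coeff a (subst g G) = if a = expo m n then c else 0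

/-- no form of degree `n` vanishes at all crossing points of `G = 0` -/
def TotDeg (n : ℕ) (G : MvPolynomial (Fin (m + 1)) κ) : Prop :=
  ∀ P : MvPolynomial (Fin (m + 1)) κ, P.IsHomogeneous n →
    (∀ g, Crossing n G g → eval (fun i => g i 0) P = 0) → P = 0

lemma exists_dat {n : ℕ} {G : MvPolynomial (Fin (m + 1)) κ} (hG : TotDeg n G) :
    ∃ (J : Type) (_ : Fintype J), Nonempty (Dat m n κ G J) := by
  classical
  let S : Set (Idx m n → κ) := {x | ∃ g, Crossing n G g ∧
    x = fun w : Idx m n => ∏ i, (g i 0) ^ ((w : Fin (m + 1) →₀ ℕ) i)}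
  have hS : Submodule.span κ S = ⊤ := by
    by_contra hne
    obtain ⟨f, hf, hle⟩ := Submodule.exists_le_ker_of_lt_top _ (lt_top_iff_ne_top.2 hne)
    apply hf
    have h0 : poly (fun v : Idx m n => f (Pi.single v 1)) = 0 := by
      apply hG _ (poly_homog _)
      intro g hg
      have h1 : (fun w : Idx m n => ∏ i, (g i 0) ^ ((w : Fin (m + 1) →₀ ℕ) i)) ∈ S :=
        ⟨g, hg, rfl⟩
      have h2 := hle (Submodule.subset_span h1)
      rw [LinearMap.mem_ker] at h2
      rw [eval_poly, ← h2]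
      conv_rhs => rw [← Finset.univ_sum_single (fun w : Idx m n =>
        ∏ i, (g i 0) ^ ((w : Fin (m + 1) →₀ ℕ) i))]
      rw [map_sum]
      refine Finset.sum_congr rfl fun v _ => ?_
      have h3 : (Pi.single v (∏ i, (g i 0) ^ ((v : Fin (m + 1) →₀ ℕ) i)) : Idx m n → κ) =
          (∏ i, (g i 0) ^ ((v : Fin (m + 1) →₀ ℕ) i)) • Pi.single v 1 := by
        rw [← Pi.single_smul, smul_eq_mul, mul_one]
      rw [h3, map_smul, smul_eq_mul, mul_comm]
    refine LinearMap.pi_ext' fun v => ?_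
    ext
    simp only [LinearMap.comp_apply, LinearMap.coe_single, LinearMap.zero_apply]
    have h1 := coeff_poly (fun v : Idx m n => f (Pi.single v 1)) v
    rw [h0, coeff_zero] at h1
    exact h1.symm
  have hv : ∀ v : Idx m n, ∃ (N : ℕ) (f : Fin N → κ) (s : Fin N → S),
      ∑ i, f i • (s i : Idx m n → κ) = Pi.single v 1 := by
    intro v
    have h1 : (Pi.single v 1 : Idx m n → κ) ∈ Submodule.span κ S := by rw [hS]; trivial
    exact Submodule.mem_span_set'.1 h1
  choose N f s hs using hv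
  have hg : ∀ (v : Idx m n) (i : Fin (N v)), ∃ g, Crossing n G g ∧
      (s v i : Idx m n → κ) = fun w : Idx m n => ∏ i, (g i 0) ^ ((w : Fin (m + 1) →₀ ℕ) i) :=
    fun v i => (s v i).2
  choose g hg hgs using hg
  choose hdet wg c hc hcG using hg
  refine ⟨(Σ v : Idx m n, Fin (N v)), inferInstance, ⟨⟨fun j => g j.1 j.2, fun j => (g j.1 j.2)⁻¹,
    fun j => c j.1 j.2, fun j => (c j.1 j.2)⁻¹, fun v j => if j.1 = v then f j.1 j.2 else 0,
    fun j => wg j.1 j.2, fun j => ?_, fun j => ?_, fun j => ?_, fun v w => ?_⟩⟩⟩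
  · exact Matrix.mul_nonsing_inv _ (isUnit_iff_ne_zero.2 (hdet _ _))
  · exact mul_inv_cancel₀ (hc _ _)
  · exact hcG _ _
  · rw [Fintype.sum_sigma, Finset.sum_eq_single v]
    · simp only [if_true]
      have h1 := congrFun (hs v) w
      rw [Finset.sum_apply] at h1
      simp only [Pi.smul_apply, smul_eq_mul, hgs] at h1
      rw [h1, Pi.single_apply]
      by_cases h : v = w
      · rw [if_pos h, if_pos h.symm]
      · rw [if_neg h, if_neg (Ne.symm h)]
    · intro v' _ hv'
      simp [hv']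
    · intro h; exact absurd (Finset.mem_univ _) h

end defs

/-- all the elements of the data -/
def Dat.ent {m n : ℕ} {R : Type*} [CommRing R] {G : MvPolynomial (Fin (m + 1)) R} {J : Type*}
    [Fintype J] (D : Dat m n R G J) : Set R :=
  (Set.range fun x : J × Fin (m + 1) × Fin (m + 1) => D.g x.1 x.2.1 x.2.2) ∪
  ((Set.range fun x : J × Fin (m + 1) × Fin (m + 1) => D.g' x.1 x.2.1 x.2.2) ∪
  (Set.range D.c ∪ (Set.range D.c' ∪ Set.range fun x : Idx m n × J => D.f x.1 x.2)))

lemma Dat.ent_finite {m n : ℕ} {R : Type*} [CommRing R] {G : MvPolynomial (Fin (m + 1)) R}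
    {J : Type*} [Fintype J] (D : Dat m n R G J) : D.ent.Finite :=
  (Set.finite_range _).union ((Set.finite_range _).union ((Set.finite_range _).union
    ((Set.finite_range _).union (Set.finite_range _))))

/-- descent of the data to a subring -/
lemma Dat.lift {m n : ℕ} {κ : Type*} [CommRing κ] {G : MvPolynomial (Fin (m + 1)) κ} {J : Type*}
    [Fintype J] (D : Dat m n κ G J) (A : Subalgebra ℤ κ) (hA : D.ent ⊆ A)
    (G' : MvPolynomial (Fin (m + 1)) A) (hG' : MvPolynomial.map (algebraMap A κ) G' = G) :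
    Nonempty (Dat m n A G' J) := by
  have hinj : Function.Injective (algebraMap A κ) := Subtype.val_injective
  have h1 : ∀ j i l, D.g j i l ∈ A := fun j i l => hA (Or.inl ⟨(j, i, l), rfl⟩)
  have h2 : ∀ j i l, D.g' j i l ∈ A := fun j i l => hA (Or.inr (Or.inl ⟨(j, i, l), rfl⟩))
  have h3 : ∀ j, D.c j ∈ A := fun j => hA (Or.inr (Or.inr (Or.inl ⟨j, rfl⟩)))
  have h4 : ∀ j, D.c' j ∈ A := fun j => hA (Or.inr (Or.inr (Or.inr (Or.inl ⟨j, rfl⟩))))
  have h5 : ∀ v j, D.f v j ∈ A := fun v j => hA (Or.inr (Or.inr (Or.inr (Or.inr ⟨(v, j), rfl⟩))))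
  refine ⟨⟨fun j => Matrix.of fun i l => ⟨D.g j i l, h1 j i l⟩,
    fun j => Matrix.of fun i l => ⟨D.g' j i l, h2 j i l⟩,
    fun j => ⟨D.c j, h3 j⟩, fun j => ⟨D.c' j, h4 j⟩, fun v j => ⟨D.f v j, h5 v j⟩,
    D.w, fun j => ?_, fun j => ?_, fun j a ha => ?_, fun v w => ?_⟩⟩
  · ext i l
    have := congrFun (congrFun (D.hg j) i) l
    rw [Matrix.mul_apply] at this
    rw [Matrix.mul_apply]
    push_cast
    simp only [Matrix.of_apply]
    rw [this, Matrix.one_apply, Matrix.one_apply]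
    split_ifs <;> simp
  · apply hinj
    rw [map_mul]
    exact D.hc j
  · apply hinj
    rw [← coeff_map, ← subst_map, hG']
    have h6 : (Matrix.of fun i l => (⟨D.g j i l, h1 j i l⟩ : A)).map (algebraMap A κ) = D.g j := by
      ext i l; rfl
    rw [h6, D.hG j a ha]
    split_ifs <;> simp <;> rfl
  · apply hinj
    rw [map_sum]
    simp only [map_mul, map_prod, map_pow]
    have := D.hf v w
    refine Eq.trans this ?_
    split_ifs <;> simp

end Pool.Agent.U8.OD
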