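import Mathlib

/-!
# Hasse-Witt matrices of hypersurfaces and crossing points

The local computation at a point of multiplicity `m` of a hypersurface in `ℙ^m` whose tangent cone
is the union of `m` independent hyperplanes.
-/

set_option autoImplicit false
set_option linter.all false

open MvPolynomial

namespace Pool.Agent.U8.OD

/-- the exponents of the monomials of degree `n` in `m + 1` variables -/
abbrev Idx (m n : ℕ) : Type := ↥((Finset.univ : Finset (Fin (m + 1))).finsuppAntidiag n)

/-- the exponent `(p - 1, …, p - 1)` -/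
noncomputable def kap (m p : ℕ) : Fin (m + 1) →₀ ℕ :=
  Finsupp.equivFunOnFinite.symm fun _ => p - 1

@[simp] lemma kap_apply (m p : ℕ) (i : Fin (m + 1)) : kap m p i = p - 1 := rfl

/-- The Hasse-Witt matrix of the hypersurface `F = 0` of degree `m + 1 + n` in `ℙ^m`. -/
noncomputable def hw {m : ℕ} {R : Type*} [CommRing R] (p n : ℕ) (F : MvPolynomial (Fin (m + 1)) R) :
    Matrix (Idx m n) (Idx m n) R :=
  Matrix.of fun u v => coeff (p • (u : Fin (m + 1) →₀ ℕ) + kap m p)
    (monomial (v : Fin (m + 1) →₀ ℕ) 1 * F ^ (p - 1))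

lemma hw_map {m : ℕ} {R S : Type*} [CommRing R] [CommRing S] (f : R →+* S) (p n : ℕ)
    (F : MvPolynomial (Fin (m + 1)) R) : hw p n (map f F) = (hw p n F).map f := by
  ext u v
  simp only [hw, Matrix.of_apply, Matrix.map_apply]
  rw [← coeff_map, map_mul, map_pow, map_monomial, f.map_one]

/-- the linear substitution `x ↦ g x` -/
noncomputable def subst {m : ℕ} {R : Type*} [CommRing R]
    (g : Matrix (Fin (m + 1)) (Fin (m + 1)) R) :
    MvPolynomial (Fin (m + 1)) R →ₐ[R] MvPolynomial (Fin (m + 1)) R :=
  aeval fun i => ∑ j, C (g i j) * X j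

section basics

variable {m : ℕ} {R S : Type*} [CommRing R] [CommRing S]

lemma subst_X (g : Matrix (Fin (m + 1)) (Fin (m + 1)) R) (i : Fin (m + 1)) :
    subst g (X i) = ∑ j, C (g i j) * X j := by
  simp [subst]

lemma subst_C (g : Matrix (Fin (m + 1)) (Fin (m + 1)) R) (a : R) :
    subst g (C a) = C a := by
  simp [subst]

lemma subst_map (f : R →+* S) (g : Matrix (Fin (m + 1)) (Fin (m + 1)) R)
    (F : MvPolynomial (Fin (m + 1)) R) :
    subst (g.map f) (map f F) = map f (subst g F) := by
  induction F using MvPolynomial.induction_on with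
  | C a => simp [subst_C]
  | add p q hp hq => rw [map_add, map_add, map_add, map_add, hp, hq]
  | mul_X p i hp =>
    rw [map_mul, map_mul, map_mul, map_mul, hp, map_X, subst_X, subst_X, map_sum]
    congr 1
    refine Finset.sum_congr rfl fun j _ => ?_
    rw [map_mul, map_C, map_X, Matrix.map_apply]

lemma subst_subst (g h : Matrix (Fin (m + 1)) (Fin (m + 1)) R)
    (F : MvPolynomial (Fin (m + 1)) R) :
    subst g (subst h F) = subst (h * g) F := by
  induction F using MvPolynomial.induction_on with
  | C a => simp only [subst_C]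
  | add p q hp hq => simp only [map_add, hp, hq]
  | mul_X p i hp =>
    rw [map_mul, map_mul, map_mul, hp, subst_X, subst_X, map_sum]
    congr 1
    simp only [map_mul, subst_C, subst_X, Finset.mul_sum, Matrix.mul_apply, map_sum, Finset.sum_mul]
    rw [Finset.sum_comm]
    refine Finset.sum_congr rfl fun j _ => Finset.sum_congr rfl fun l _ => ?_
    ring

lemma subst_one (F : MvPolynomial (Fin (m + 1)) R) :
    subst (1 : Matrix (Fin (m + 1)) (Fin (m + 1)) R) F = F := by
  induction F using MvPolynomial.induction_on with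
  | C a => simp only [subst_C]
  | add p q hp hq => simp only [map_add, hp, hq]
  | mul_X p i hp =>
    rw [map_mul, hp, subst_X]
    congr 1
    simp [Matrix.one_apply]

lemma subst_homog (g : Matrix (Fin (m + 1)) (Fin (m + 1)) R) {n : ℕ}
    {F : MvPolynomial (Fin (m + 1)) R} (hF : F.IsHomogeneous n) :
    (subst g F).IsHomogeneous n := by
  have := hF.aeval (S := R) (fun i : Fin (m + 1) => ∑ j, C (g i j) * X j) (n := 1) (fun i => ?_)
  · simpa [subst] using this
  · refine IsHomogeneous.sum _ _ _ fun j _ => ?_
    exact isHomogeneous_C_mul_X _ _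

/-- the chain rule -/
lemma pderiv_subst (g : Matrix (Fin (m + 1)) (Fin (m + 1)) R)
    (F : MvPolynomial (Fin (m + 1)) R) (j : Fin (m + 1)) :
    pderiv j (subst g F) = ∑ i, C (g i j) * subst g (pderiv i F) := by
  induction F using MvPolynomial.induction_on with
  | C a => simp [subst_C]
  | add p q hp hq => simp only [map_add, hp, hq, mul_add, Finset.sum_add_distrib]
  | mul_X p k hp =>
    have h1 : pderiv j (∑ l, C (g k l) * X l : MvPolynomial (Fin (m + 1)) R) = C (g k j) := by
      rw [map_sum, Finset.sum_eq_single j]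
      · rw [pderiv_C_mul, pderiv_X_self, mul_one]
      · intro b _ hb
        rw [pderiv_C_mul, pderiv_X_of_ne hb, mul_zero]
      · intro h; exact absurd (Finset.mem_univ _) h
    rw [map_mul, pderiv_mul, hp, subst_X, h1]
    have h2 : ∀ i, subst g (pderiv i (p * X k)) =
        subst g (pderiv i p) * (∑ l, C (g k l) * X l) + (if i = k then subst g p else 0) := by
      intro i
      rw [pderiv_mul, map_add, map_mul, map_mul, subst_X]
      congr 1
      by_cases hik : i = k
      · subst hik
        rw [pderiv_X_self, map_one, mul_one, if_pos rfl]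
      · rw [pderiv_X_of_ne (Ne.symm hik), map_zero, mul_zero, if_neg hik]
    simp only [h2, mul_add, Finset.sum_add_distrib, mul_ite, mul_zero, Finset.sum_ite_eq',
      Finset.mem_univ, if_true]
    rw [Finset.sum_mul, mul_comm (subst g p)]
    congr 1
    refine Finset.sum_congr rfl fun i _ => ?_
    rw [mul_assoc]

end basics

section charp

variable {m : ℕ} {K : Type*} [Field K] {p : ℕ}

/-- coefficients at exponents `≡ -1 mod p` of a derivative -/
lemma coeff_pderiv_kap (hp : p.Prime) (hK : (p : K) = 0) (j : Fin (m + 1))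
    (H : MvPolynomial (Fin (m + 1)) K) (u : Fin (m + 1) →₀ ℕ) :
    coeff (p • u + kap m p) (pderiv j H) = 0 := by
  rw [coeff_pderiv]
  have h1 : (((p • u + kap m p) j : ℕ) : K) + 1 = 0 := by
    have h2 : (p • u + kap m p) j + 1 = p * (u j + 1) := by
      simp only [Finsupp.add_apply, Finsupp.smul_apply, smul_eq_mul, kap_apply]
      have := hp.pos
      obtain ⟨q, rfl⟩ : ∃ q, p = q + 1 := ⟨p - 1, by omega⟩
      simp only [Nat.add_sub_cancel]
      ring
    have h3 : ((((p • u + kap m p) j + 1 : ℕ)) : K) = 0 := by
      rw [h2, Nat.cast_mul, hK, zero_mul]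
    simpa using h3
  rw [h1, mul_zero]

/-- vanishing of the Cartier operator is invariant under invertible linear substitutions -/
lemma cartier_subst (hp : p.Prime) (hK : (p : K) = 0) [CharP K p]
    {g g' : Matrix (Fin (m + 1)) (Fin (m + 1)) K} (hg : g * g' = 1)
    (Q : MvPolynomial (Fin (m + 1)) K)
    (hQ : ∀ u, coeff (p • u + kap m p) Q = 0) (u : Fin (m + 1) →₀ ℕ) :
    coeff (p • u + kap m p) (subst g Q) = 0 := by
  have hmon : ∀ (a : Fin (m + 1) →₀ ℕ), (∃ i, ¬ p ∣ a i + 1) → ∀ c : K,
      coeff (p • u + kap m p) (subst g (monomial a c)) = 0 := by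
    rintro a ⟨i, hi⟩ c
    have hne : ((a i : K) + 1) ≠ 0 := by
      intro h
      apply hi
      rw [← CharP.cast_eq_zero_iff K p]
      exact_mod_cast h
    set H : MvPolynomial (Fin (m + 1)) K := monomial (a + Finsupp.single i 1) (c / (a i + 1)) with hH
    have h1 : monomial a c = pderiv i H := by
      rw [hH, pderiv_monomial]
      congr 1
      · simp
      · simp only [Finsupp.add_apply, Finsupp.single_eq_same, Nat.cast_add, Nat.cast_one]
        rw [div_mul_cancel₀ _ hne]
    have h2 : subst g (pderiv i H) = ∑ j, C (g' j i) * pderiv j (subst g H) := by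
      simp only [pderiv_subst, Finset.mul_sum]
      rw [Finset.sum_comm]
      have h3 : ∀ l, ∑ j, C (g' j i) * (C (g l j) * subst g (pderiv l H)) =
          C ((g * g') l i) * subst g (pderiv l H) := by
        intro l
        rw [Matrix.mul_apply, map_sum, Finset.sum_mul]
        refine Finset.sum_congr rfl fun j _ => ?_
        rw [map_mul]; ring
      simp only [h3, hg, Matrix.one_apply]
      rw [Finset.sum_eq_single i]
      · simp
      · intro l _ hl; simp [hl]
      · intro h; exact absurd (Finset.mem_univ _) h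
    rw [h1, h2, coeff_sum]
    refine Finset.sum_eq_zero fun j _ => ?_
    rw [coeff_C_mul, coeff_pderiv_kap hp hK, mul_zero]
  rw [Q.as_sum, map_sum, coeff_sum]
  refine Finset.sum_eq_zero fun a ha => ?_
  by_cases h : ∃ i, ¬ p ∣ a i + 1
  · exact hmon a h _
  · exfalso
    push Not at h
    choose b hb using h
    have h1 : a = p • (Finsupp.equivFunOnFinite.symm fun i => b i - 1) + kap m p := by
      ext i
      simp only [Finsupp.add_apply, Finsupp.smul_apply, smul_eq_mul, kap_apply,
        Finsupp.equivFunOnFinite_symm_apply_apply]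
      have h2 := hb i
      have h3 : 1 ≤ b i := by
        rcases Nat.eq_zero_or_pos (b i) with h4 | h4
        · rw [h4] at h2; omega
        · exact h4
      obtain ⟨e, he⟩ : ∃ e, b i = e + 1 := ⟨b i - 1, by omega⟩
      have := hp.pos
      rw [he] at h2 ⊢
      simp only [Nat.add_sub_cancel]
      rw [mul_add, mul_one] at h2
      omega
    rw [mem_support_iff] at ha
    apply ha
    rw [h1]
    exact hQ _

end charp

end Pool.Agent.U8.OD
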