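import Pool.Agent.U8.OD.Local

set_option autoImplicit false
set_option linter.all false

open MvPolynomial

namespace Pool.Agent.U8.OD

/-- the exponent `(n + 1, 1, …, 1)` -/
noncomputable def expo (m n : ℕ) : Fin (m + 1) →₀ ℕ :=
  Finsupp.equivFunOnFinite.symm fun i => if i = 0 then n + 1 else 1

@[simp] lemma expo_zero (m n : ℕ) : expo m n 0 = n + 1 := by simp [expo]
@[simp] lemma expo_succ (m n : ℕ) (i : Fin m) : expo m n i.succ = 1 := by
  simp [expo, Fin.succ_ne_zero]

section low

variable {m : ℕ} {R : Type*} [CommRing R]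

/-- the weight of a monomial, for weights of the variables `x_1, …, x_m` -/
def wt {m : ℕ} (w : Fin m → ℕ) (a : Fin (m + 1) →₀ ℕ) : ℕ := ∑ i : Fin m, w i * a i.succ

lemma wt_add (w : Fin m → ℕ) (a b : Fin (m + 1) →₀ ℕ) : wt w (a + b) = wt w a + wt w b := by
  simp [wt, Finset.sum_add_distrib, mul_add]

/-- all monomials have weight `≥ d` -/
def Low (w : Fin m → ℕ) (d : ℕ) (P : MvPolynomial (Fin (m + 1)) R) : Prop :=
  ∀ a, wt w a < d → coeff a P = 0

lemma Low.mul {w : Fin m → ℕ} {d e : ℕ} {P Q : MvPolynomial (Fin (m + 1)) R} (hP : Low w d P)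
    (hQ : Low w e Q) : Low w (d + e) (P * Q) := by
  classical
  intro a ha
  rw [coeff_mul]
  refine Finset.sum_eq_zero fun x hx => ?_
  have h1 := Finset.HasAntidiagonal.mem_antidiagonal.1 hx
  have h2 : wt w x.1 + wt w x.2 = wt w a := by rw [← wt_add, h1]
  rcases lt_or_ge (wt w x.1) d with h | h
  · rw [hP _ h, zero_mul]
  · rw [hQ _ (by omega), mul_zero]

lemma Low.add {w : Fin m → ℕ} {d : ℕ} {P Q : MvPolynomial (Fin (m + 1)) R} (hP : Low w d P)
    (hQ : Low w d Q) : Low w d (P + Q) := by
  intro a ha
  rw [coeff_add, hP a ha, hQ a ha, add_zero]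

lemma Low.mono {w : Fin m → ℕ} {d e : ℕ} (h : e ≤ d) {P : MvPolynomial (Fin (m + 1)) R}
    (hP : Low w d P) : Low w e P := fun a ha => hP a (lt_of_lt_of_le ha h)

lemma low_monomial {w : Fin m → ℕ} {d : ℕ} (a : Fin (m + 1) →₀ ℕ) (c : R) (h : d ≤ wt w a) :
    Low w d (monomial a c) := by
  classical
  intro b hb
  rw [coeff_monomial, if_neg]
  rintro rfl
  omega

lemma wt_expo (w : Fin m → ℕ) (n : ℕ) : wt w (expo m n) = ∑ i, w i := by simp [wt]

lemma wt_smul_expo (w : Fin m → ℕ) (n q : ℕ) : wt w (q • expo m n) = q * ∑ i, w i := by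
  simp [wt, mul_comm, Finset.mul_sum]

/-- the local computation at a crossing point -/
lemma pow_local {n : ℕ} {w : Fin m → ℕ} {G : MvPolynomial (Fin (m + 1)) R} {c : R}
    (hG : ∀ a : Fin (m + 1) →₀ ℕ, ∑ i : Fin m, w i * a i.succ ≤ ∑ i, w i →
      coeff a G = if a = expo m n then c else 0) (q : ℕ) :
    Low w (q * (∑ i, w i) + 1) (G ^ q - monomial (q • expo m n) (c ^ q)) := by
  classical
  set W : ℕ := ∑ i, w i with hW
  have hlow : Low w (W + 1) (G - monomial (expo m n) c) := by
    intro a ha
    have h1 := hG a (by have : wt w a = ∑ i : Fin m, w i * a i.succ := rfl; omega)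
    rw [coeff_sub, coeff_monomial, h1]
    by_cases h : a = expo m n
    · rw [if_pos h, if_pos h.symm, sub_self]
    · rw [if_neg h, if_neg (Ne.symm h), sub_self]
  have hGm : Low w W G := by
    intro a ha
    have h1 := hG a (by have : wt w a = ∑ i : Fin m, w i * a i.succ := rfl; omega)
    rw [h1, if_neg]
    rintro rfl
    rw [wt_expo] at ha
    omega
  induction q with
  | zero =>
    intro a ha
    simp
  | succ q ih =>
    have h1 : G ^ (q + 1) - monomial ((q + 1) • expo m n) (c ^ (q + 1)) =
        (G ^ q - monomial (q • expo m n) (c ^ q)) * G +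
        monomial (q • expo m n) (c ^ q) * (G - monomial (expo m n) c) := by
      have h2 : (monomial ((q + 1) • expo m n) (c ^ (q + 1)) : MvPolynomial (Fin (m + 1)) R) =
          monomial (q • expo m n) (c ^ q) * monomial (expo m n) c := by
        rw [monomial_mul, add_smul, one_smul, pow_succ]
      rw [h2]; ring
    rw [h1]
    refine Low.add ?_ ?_
    · refine (ih.mul hGm).mono ?_
      have : (q + 1) * W = q * W + W := by ring
      omega
    · refine ((low_monomial (d := q * W) _ _ ?_).mul hlow).mono ?_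
      · rw [wt_smul_expo]
      · have : (q + 1) * W = q * W + W := by ring
        omega

lemma coeff_local {n p : ℕ} (hp : p.Prime) {w : Fin m → ℕ} {G : MvPolynomial (Fin (m + 1)) R}
    {c : R} (hG : ∀ a : Fin (m + 1) →₀ ℕ, ∑ i : Fin m, w i * a i.succ ≤ ∑ i, w i →
      coeff a G = if a = expo m n then c else 0) (P : MvPolynomial (Fin (m + 1)) R) :
    coeff (p • Finsupp.single 0 n + kap m p) (P * G ^ (p - 1)) =
      coeff (Finsupp.single 0 n) P * c ^ (p - 1) := by
  classical
  obtain ⟨q, rfl⟩ : ∃ q, p = q + 1 := ⟨p - 1, by have := hp.pos; omega⟩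
  simp only [Nat.add_sub_cancel]
  have h1 : ((q + 1) • Finsupp.single 0 n + kap m (q + 1) : Fin (m + 1) →₀ ℕ) =
      Finsupp.single 0 n + q • expo m n := by
    ext i
    refine Fin.cases ?_ (fun i => ?_) i
    · simp only [Finsupp.add_apply, Finsupp.smul_apply, smul_eq_mul, kap_apply,
        Finsupp.single_eq_same, expo_zero, Nat.add_sub_cancel]
      ring
    · simp [Finsupp.single_apply, (Fin.succ_ne_zero i).symm]
  have h2 : G ^ q = (G ^ q - monomial (q • expo m n) (c ^ q)) + monomial (q • expo m n) (c ^ q) := by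
    ring
  rw [h2, mul_add, coeff_add, h1, coeff_mul_monomial]
  have h3 : Low w (0 + (q * (∑ i, w i) + 1)) (P * (G ^ q - monomial (q • expo m n) (c ^ q))) :=
    Low.mul (fun a ha => absurd ha (Nat.not_lt_zero _)) (pow_local hG q)
  rw [h3, zero_add]
  rw [wt_add]
  have h4 : wt w (Finsupp.single (0 : Fin (m + 1)) n) = 0 := by
    simp [wt, Finsupp.single_apply, (Fin.succ_ne_zero _).symm]
  rw [wt_smul_expo]
  omega

end low

section restrict

variable {m : ℕ} {R : Type*} [CommRing R]

/-- restriction to the `x_0`-axis -/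
noncomputable def ax : MvPolynomial (Fin (m + 1)) R →ₐ[R] Polynomial R :=
  aeval fun i => if i = 0 then Polynomial.X else 0

lemma ax_coeff (Q : MvPolynomial (Fin (m + 1)) R) (b : ℕ) :
    (ax Q).coeff b = coeff (Finsupp.single 0 b) Q := by
  classical
  induction Q using MvPolynomial.induction_on' with
  | add p q hp hq => rw [map_add, Polynomial.coeff_add, coeff_add, hp, hq]
  | monomial a c =>
    rw [ax, aeval_monomial, coeff_monomial]
    rw [Finsupp.prod_fintype _ _ (fun i => by simp), Fin.prod_univ_succ]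
    simp only [if_true, Fin.succ_ne_zero, if_false]
    by_cases h : ∀ i : Fin m, a i.succ = 0
    · have h1 : a = Finsupp.single 0 (a 0) := by
        ext i
        refine Fin.cases ?_ (fun i => ?_) i
        · simp
        · simp [h i, Finsupp.single_apply, (Fin.succ_ne_zero _).symm]
      simp only [h, pow_zero, Finset.prod_const_one, mul_one]
      rw [Polynomial.algebraMap_apply, Algebra.algebraMap_self, RingHom.id_apply,
        Polynomial.coeff_C_mul_X_pow]
      by_cases hb : b = a 0
      · rw [if_pos hb, if_pos]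
        rw [h1, hb]
      · rw [if_neg hb, if_neg]
        intro h2
        apply hb
        rw [h2]; simp
    · push Not at h
      obtain ⟨i, hi⟩ := h
      rw [Finset.prod_eq_zero (Finset.mem_univ i) (zero_pow hi), mul_zero, mul_zero,
        Polynomial.coeff_zero, if_neg]
      intro h2
      apply hi
      rw [h2]
      simp [Finsupp.single_apply, (Fin.succ_ne_zero _).symm]

/-- evaluation of a form of degree `n` at the point `g e_0` -/
lemma coeff_axis (g : Matrix (Fin (m + 1)) (Fin (m + 1)) R) {n : ℕ}
    {P : MvPolynomial (Fin (m + 1)) R} (hP : P.IsHomogeneous n) :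
    coeff (Finsupp.single 0 n) (subst g P) = eval (fun i => g i 0) P := by
  classical
  rw [← ax_coeff]
  have h1 : ∀ Q : MvPolynomial (Fin (m + 1)) R, ax (subst g Q) =
      aeval (fun i => Polynomial.C (g i 0) * Polynomial.X) Q := by
    intro Q
    induction Q using MvPolynomial.induction_on with
    | C a => simp [subst_C, ax]
    | add p q hp hq => simp only [map_add, hp, hq]
    | mul_X p i hp =>
      rw [map_mul, map_mul, map_mul, hp, subst_X, aeval_X, map_sum]
      congr 1
      rw [Finset.sum_eq_single 0]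
      · simp [ax]
      · intro j _ hj
        simp [ax, hj]
      · intro h; exact absurd (Finset.mem_univ _) h
  rw [h1]
  conv_lhs => rw [P.as_sum]
  conv_rhs => rw [P.as_sum]
  rw [map_sum, map_sum, Polynomial.finset_sum_coeff]
  refine Finset.sum_congr rfl fun a ha => ?_
  have hdeg : a.degree = n := by
    by_contra h
    exact (mem_support_iff.1 ha) (hP.coeff_eq_zero h)
  rw [aeval_monomial, eval_monomial]
  rw [Finsupp.prod_fintype _ _ (fun i => by simp), Finsupp.prod_fintype _ _ (fun i => by simp)]
  simp only [mul_pow]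
  rw [Finset.prod_mul_distrib, Finset.prod_pow_eq_pow_sum]
  have h2 : ∑ i, a i = n := by
    rw [← hdeg, Finsupp.degree_eq_sum]
  rw [h2, Polynomial.algebraMap_apply, Algebra.algebraMap_self, RingHom.id_apply]
  have h3 : (∏ i, Polynomial.C (g i 0) ^ a i : Polynomial R) = Polynomial.C (∏ i, g i 0 ^ a i) := by
    rw [map_prod]; simp
  rw [h3, ← mul_assoc, ← Polynomial.C_mul, Polynomial.coeff_C_mul_X_pow, if_pos rfl]

end restrict

end Pool.Agent.U8.OD
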