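import Pool.Agent.U8.OD.Deg
import Pool.Agent.Y162.HW.Spread

set_option autoImplicit false
set_option linter.all false

open MvPolynomial

namespace Pool.Agent.U8.OD

lemma prime_charP {L : Type*} [Field L] {p : ℕ} (hp : p.Prime) (h : ((p : ℕ) : L) = 0) :
    CharP L p := by
  obtain ⟨q, hq⟩ := CharP.exists L
  have h2 : q ∣ p := (CharP.cast_eq_zero_iff L q p).1 h
  rcases (Nat.dvd_prime hp).1 h2 with h3 | h3
  · subst h3
    exact absurd (CharP.char_ne_one L 1 rfl) (by simp)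
  · rwa [← h3]

lemma hw_det_map {m : ℕ} {R S : Type*} [CommRing R] [CommRing S] (f : R →+* S) (p n : ℕ)
    (F : MvPolynomial (Fin (m + 1)) R) : (hw p n (map f F)).det = f (hw p n F).det := by
  rw [hw_map]
  exact (RingHom.map_det f _).symm

theorem main {k κ : Type*} [Field k] [CharZero k] [Field κ] [CharZero κ]
    (O : Subring k) (θ : O →+* κ) {ι : Type*} [Fintype ι] (m n : ι → ℕ)
    (A : Subalgebra ℤ k) (hA : A.FG) (F : ∀ c, MvPolynomial (Fin (m c + 1)) A)
    (hF : ∀ c, (F c).IsHomogeneous (m c + n c + 1))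
    (F₀ : ∀ c, MvPolynomial (Fin (m c + 1)) O)
    (lam : ι → k) (h : ∀ c, Matrix (Fin (m c + 1)) (Fin (m c + 1)) k) (hh : ∀ c, (h c).det ≠ 0)
    (hF₀ : ∀ c, map O.subtype (F₀ c) = C (lam c) * subst (h c) (map (algebraMap A k) (F c)))
    (hdeg : ∀ c, TotDeg (n c) (map θ (F₀ c)))
    (a : A) (ha : a ≠ 0) :
    ∃ N : ℕ, ∀ p : ℕ, N ≤ p → p.Prime → ∃ M : Ideal A, M.IsMaximal ∧ (p : A) ∈ M ∧ a ∉ M ∧
      ∀ c, (hw p (n c) (map (Ideal.Quotient.mk M) (F c))).det ≠ 0 := by
  classical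
  let φ : O →ₐ[ℤ] k := O.subtype.toIntAlgHom
  let θ' : O →ₐ[ℤ] κ := θ.toIntAlgHom
  have hφ : Function.Injective φ := Subtype.val_injective
  -- the ring generated by the coefficients
  let T : Set O := ⋃ c, ((F₀ c).coeffs : Set O)
  have hT : T.Finite := Set.finite_iUnion fun c => (F₀ c).coeffs.finite_toSet
  let C₁ : Subalgebra ℤ O := Algebra.adjoin ℤ T
  have hC₁ : C₁.FG := Subalgebra.fg_def.2 ⟨T, hT, rfl⟩
  have hFC : ∀ c, ∃ P : MvPolynomial (Fin (m c + 1)) C₁, map (algebraMap C₁ O) P = F₀ c := by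
    intro c
    have h1 : F₀ c ∈ Set.range (map (algebraMap C₁ O) : MvPolynomial (Fin (m c + 1)) C₁ →+* _) := by
      rw [mem_range_map_iff_coeffs_subset]
      intro x hx
      exact ⟨⟨x, Algebra.subset_adjoin (Set.mem_iUnion.2 ⟨c, hx⟩)⟩, rfl⟩
    exact h1
  choose FC hFC using hFC
  -- the data
  have hD : ∀ c, ∃ (J : Type) (_ : Fintype J), Nonempty (Dat (m c) (n c) κ (map θ (F₀ c)) J) :=
    fun c => exists_dat (hdeg c)
  choose J hJ hD using hD
  let D : ∀ c, Dat (m c) (n c) κ (map θ (F₀ c)) (J c) := fun c => (hD c).some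
  let E : Set κ := ⋃ c, (D c).ent
  have hE : E.Finite := Set.finite_iUnion fun c => (D c).ent_finite
  let A' : Subalgebra ℤ κ := C₁.map θ' ⊔ Algebra.adjoin ℤ E
  have hA' : A'.FG := (hC₁.map θ').sup (Subalgebra.fg_def.2 ⟨E, hE, rfl⟩)
  have hEA : ∀ c, (D c).ent ⊆ A' := fun c x hx =>
    (le_sup_right : Algebra.adjoin ℤ E ≤ A') (Algebra.subset_adjoin (Set.mem_iUnion.2 ⟨c, hx⟩))
  let t : C₁ →+* A' := ((θ'.comp C₁.val).codRestrict A' fun x =>
    (le_sup_left : C₁.map θ' ≤ A') (Subalgebra.mem_map.2 ⟨x.1, x.2, rfl⟩)).toRingHom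
  have ht : (algebraMap A' κ).comp t = θ.comp (algebraMap C₁ O) := rfl
  have hD' : ∀ c, Nonempty (Dat (m c) (n c) A' (map t (FC c)) (J c)) := by
    intro c
    refine (D c).lift A' (hEA c) _ ?_
    rw [map_map, ht, ← map_map, hFC]
  -- the ring in `k`
  let V : Set k := ⋃ c, (({lam c} ∪ Set.range fun x : Fin (m c + 1) × Fin (m c + 1) => h c x.1 x.2) ∪
    Set.range fun x : Fin (m c + 1) × Fin (m c + 1) => (h c)⁻¹ x.1 x.2)
  have hV : V.Finite := Set.finite_iUnion fun c =>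
    ((Set.finite_singleton _).union (Set.finite_range _)).union (Set.finite_range _)
  let B : Subalgebra ℤ k := A ⊔ (C₁.map φ ⊔ Algebra.adjoin ℤ V)
  have hB : B.FG := hA.sup ((hC₁.map φ).sup (Subalgebra.fg_def.2 ⟨V, hV, rfl⟩))
  have hVB : V ⊆ B := fun x hx =>
    (le_sup_right.trans le_sup_right : Algebra.adjoin ℤ V ≤ B) (Algebra.subset_adjoin hx)
  have hlamB : ∀ c, lam c ∈ B := fun c => hVB (Set.mem_iUnion.2 ⟨c, Or.inl (Or.inl rfl)⟩)
  have hhB : ∀ c i l, h c i l ∈ B := fun c i l =>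
    hVB (Set.mem_iUnion.2 ⟨c, Or.inl (Or.inr ⟨(i, l), rfl⟩)⟩)
  have hhB' : ∀ c i l, (h c)⁻¹ i l ∈ B := fun c i l =>
    hVB (Set.mem_iUnion.2 ⟨c, Or.inr ⟨(i, l), rfl⟩⟩)
  let iA : A →+* B := (Subalgebra.inclusion (le_sup_left : A ≤ B)).toRingHom
  have hiA : Function.Injective iA := Subalgebra.inclusion_injective _
  let f : C₁ →+* B := ((φ.comp C₁.val).codRestrict B fun x =>
    ((le_sup_left.trans le_sup_right : C₁.map φ ≤ B)) (Subalgebra.mem_map.2 ⟨x.1, x.2, rfl⟩)).toRingHom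
  have hf : Function.Injective f := by
    intro x y hxy
    have h1 : φ (x : O) = φ (y : O) := congrArg (fun z : B => (z : k)) hxy
    exact Subtype.ext (hφ h1)
  have hBinj : Function.Injective (algebraMap B k) := Subtype.val_injective
  have hfB : (algebraMap B k).comp f = (O.subtype).comp (algebraMap C₁ O) := rfl
  have hiAB : (algebraMap B k).comp iA = algebraMap A k := rfl
  let hb : ∀ c, Matrix (Fin (m c + 1)) (Fin (m c + 1)) B := fun c =>
    Matrix.of fun i l => ⟨h c i l, hhB c i l⟩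
  let hb' : ∀ c, Matrix (Fin (m c + 1)) (Fin (m c + 1)) B := fun c =>
    Matrix.of fun i l => ⟨(h c)⁻¹ i l, hhB' c i l⟩
  let lb : ι → B := fun c => ⟨lam c, hlamB c⟩
  have hbb : ∀ c, hb c * hb' c = 1 := by
    intro c
    ext i l
    have h1 := congrFun (congrFun (Matrix.mul_nonsing_inv (h c) (isUnit_iff_ne_zero.2 (hh c))) i) l
    rw [Matrix.mul_apply] at h1
    rw [Matrix.mul_apply]
    push_cast
    simp only [hb, hb', Matrix.of_apply]
    rw [h1, Matrix.one_apply, Matrix.one_apply]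
    split_ifs <;> simp
  have hrel : ∀ c, map f (FC c) = C (lb c) * subst (hb c) (map iA (F c)) := by
    intro c
    apply map_injective _ hBinj
    rw [map_map, hfB, ← map_map, hFC, hF₀, map_mul, map_C, ← subst_map, map_map, hiAB]
    rfl
  have hFk : ∀ c, (map f (FC c)).IsHomogeneous (m c + n c + 1) := by
    intro c
    rw [hrel]
    exact (subst_homog _ ((hF c).map _)).C_mul _
  have hFCh : ∀ c, (FC c).IsHomogeneous (m c + n c + 1) := fun c => (hFk c).of_map hf
  -- the finiteness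
  have ftB : Algebra.FiniteType ℤ B := (Subalgebra.fg_iff_finiteType _).mp hB
  have ftA : Algebra.FiniteType ℤ A := (Subalgebra.fg_iff_finiteType _).mp hA
  have ftC : Algebra.FiniteType ℤ C₁ := (Subalgebra.fg_iff_finiteType _).mp hC₁
  have ftA' : Algebra.FiniteType ℤ A' := (Subalgebra.fg_iff_finiteType _).mp hA'
  have hJac : IsJacobsonRing A := by
    have := Pool.Agent.Y162.HW.jac_int
    exact isJacobsonRing_of_finiteType (A := ℤ)
  have ha' : iA a ≠ 0 := by rwa [map_ne_zero_iff _ hiA]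
  obtain ⟨N, hN⟩ := Pool.Agent.Y162.HW.spread f hf t (fun p => ∏ c, (hw p (n c) (FC c)).det)
    (by
      refine ⟨0, fun p _ hp Q hQ hpQ hmem => ?_⟩
      let K := FractionRing (A' ⧸ Q)
      let π : A' →+* K := (algebraMap (A' ⧸ Q) K).comp (Ideal.Quotient.mk Q)
      have hπ : ∀ x, x ∈ Q → π x = 0 := by
        intro x hx
        change (algebraMap (A' ⧸ Q) K) (Ideal.Quotient.mk Q x) = 0
        rw [Ideal.Quotient.eq_zero_iff_mem.2 hx, map_zero]
      have hp0 : ((p : ℕ) : K) = 0 := by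
        rw [← map_natCast π]; exact hπ _ hpQ
      have : CharP K p := prime_charP hp hp0
      have h1 := hπ _ hmem
      rw [map_prod, map_prod, Finset.prod_eq_zero_iff] at h1
      obtain ⟨c, _, hc⟩ := h1
      have h2 : (hw p (n c) (map π (map t (FC c)))).det = 0 := by
        rw [hw_det_map, hw_det_map]
        exact hc
      refine (((hD' c).some).map π).det_ne hp ?_ h2
      exact ((hFCh c).map _).map _) (iA a) ha'
  refine ⟨N, fun p hNp hp => ?_⟩
  obtain ⟨MB, hMB, hpM, haM, hfM⟩ := hN p hNp hp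
  have hMBp : MB.IsPrime := hMB.isPrime
  letI : Field (B ⧸ MB) := Ideal.Quotient.field MB
  have hp0 : ((p : ℕ) : B ⧸ MB) = 0 := by
    rw [← map_natCast (Ideal.Quotient.mk MB), Ideal.Quotient.eq_zero_iff_mem]; exact hpM
  have hchar : CharP (B ⧸ MB) p := prime_charP hp hp0
  have hdet : ∀ c, iA (hw p (n c) (F c)).det ∉ MB := by
    intro c hc
    apply hfM
    rw [map_prod]
    refine MB.mem_of_dvd (Finset.dvd_prod_of_mem _ (Finset.mem_univ c)) ?_
    rw [← Ideal.Quotient.eq_zero_iff_mem] at hc ⊢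
    have h1 : (hw p (n c) (map (Ideal.Quotient.mk MB) (map iA (F c)))).det = 0 := by
      rw [hw_det_map, hw_det_map]
      exact hc
    have h2 : map (Ideal.Quotient.mk MB) (map f (FC c)) =
        C (Ideal.Quotient.mk MB (lb c)) * subst ((hb c).map (Ideal.Quotient.mk MB))
          (map (Ideal.Quotient.mk MB) (map iA (F c))) := by
      rw [hrel, map_mul, map_C, subst_map]
    have h3 := sing_transfer (n := n c) hp (((hF c).map iA).map (Ideal.Quotient.mk MB))
      (h := (hb c).map (Ideal.Quotient.mk MB)) (h' := (hb' c).map (Ideal.Quotient.mk MB))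
      (by rw [← Matrix.map_mul, hbb]; simp) _ h2 h1
    rw [hw_det_map, hw_det_map] at h3
    exact h3
  -- back to `A`
  let P : Ideal A := MB.comap iA
  have hP : P.IsPrime := Ideal.comap_isPrime iA MB
  have hprod : a * ∏ c, (hw p (n c) (F c)).det ∉ P := by
    intro hmem
    rcases hP.mem_or_mem hmem with h1 | h1
    · exact haM h1
    · obtain ⟨c, _, hc⟩ := (hP.prod_mem_iff).1 h1
      exact hdet c hc
  have hjac : P.jacobson = P := isJacobsonRing_iff_prime_eq.mp hJac P hP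
  rw [← hjac, Ideal.jacobson, Submodule.mem_sInf] at hprod
  push Not at hprod
  obtain ⟨M, ⟨hPM, hM⟩, hMa⟩ := hprod
  refine ⟨M, hM, hPM ?_, fun h1 => hMa (Ideal.mul_mem_right _ M h1), fun c hc => ?_⟩
  · change iA (p : A) ∈ MB
    rw [map_natCast]; exact hpM
  · apply hMa
    refine Ideal.mul_mem_left M _ (Ideal.mem_of_dvd M (Finset.dvd_prod_of_mem _ (Finset.mem_univ c)) ?_)
    rw [hw_det_map] at hc
    exact Ideal.Quotient.eq_zero_iff_mem.1 hc

end Pool.Agent.U8.OD
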