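import Pool.Agent.U8.OD.Main

set_option autoImplicit false
set_option linter.all false

open MvPolynomial

namespace Pool.Agent.U8.OD

theorem pencil {k L : Type*} [Field k] [CharZero k] [Field L] [CharZero L] [Algebra L k]
    {ι : Type*} [Fintype ι] (m n : ι → ℕ) (t : k) (ht : Transcendental L t)
    (Φ Γ : ∀ c, MvPolynomial (Fin (m c + 1)) L)
    (hdeg : ∀ c, TotDeg (n c) (Γ c))
    (A : Subalgebra ℤ k) (hA : A.FG) (F : ∀ c, MvPolynomial (Fin (m c + 1)) A)
    (hFh : ∀ c, (F c).IsHomogeneous (m c + n c + 1))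
    (hF : ∀ c, map (algebraMap A k) (F c) =
      map (algebraMap L k) (Φ c) + C t * map (algebraMap L k) (Γ c))
    (a : A) (ha : a ≠ 0) :
    ∃ N : ℕ, ∀ p : ℕ, N ≤ p → p.Prime → ∃ M : Ideal A, M.IsMaximal ∧ (p : A) ∈ M ∧ a ∉ M ∧
      ∀ c, (hw p (n c) (map (Ideal.Quotient.mk M) (F c))).det ≠ 0 := by
  have ht0 : t ≠ 0 := by
    rintro rfl
    exact ht isAlgebraic_zero
  have hs : Transcendental L t⁻¹ := by
    intro h
    exact ht (by simpa using h.inv)
  have hinj : Function.Injective (Polynomial.aeval t⁻¹ : Polynomial L →ₐ[L] k) :=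
    transcendental_iff_injective.1 hs
  let R : Subalgebra L k := (Polynomial.aeval t⁻¹ : Polynomial L →ₐ[L] k).range
  let eqv : Polynomial L ≃ₐ[L] R := AlgEquiv.ofInjective _ hinj
  let O : Subring k := R.toSubring
  let e : Polynomial L →+* O := (eqv : Polynomial L →+* R)
  have he : ∀ P, (e P : k) = Polynomial.aeval t⁻¹ P := fun P => rfl
  let θ : O →+* L := (Polynomial.evalRingHom 0).comp (eqv.symm : R →+* Polynomial L)
  have hθ : θ.comp e = Polynomial.evalRingHom 0 := by
    ext x
    · change Polynomial.eval 0 (eqv.symm (eqv (Polynomial.C x))) = _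
      rw [AlgEquiv.symm_apply_apply]; rfl
    · change Polynomial.eval 0 (eqv.symm (eqv Polynomial.X)) = _
      rw [AlgEquiv.symm_apply_apply]; rfl
  let F₁ : ∀ c, MvPolynomial (Fin (m c + 1)) (Polynomial L) := fun c =>
    C Polynomial.X * map Polynomial.C (Φ c) + map Polynomial.C (Γ c)
  refine main O θ m n A hA F hFh (fun c => map e (F₁ c)) (fun c => t⁻¹) (fun c => 1)
    (fun c => by simp) (fun c => ?_) (fun c => ?_) a ha
  · rw [subst_one, hF, map_map]
    have h1 : (O.subtype.comp e).comp Polynomial.C = algebraMap L k := by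
      ext x
      change Polynomial.aeval t⁻¹ (Polynomial.C x) = _
      simp
    have h2 : (O.subtype.comp e) Polynomial.X = t⁻¹ := by
      change Polynomial.aeval t⁻¹ Polynomial.X = _
      simp
    simp only [F₁, map_add, map_mul, map_C, map_map, h1, h2]
    rw [mul_add, ← mul_assoc, ← map_mul, inv_mul_cancel₀ ht0, map_one, one_mul]
  · rw [map_map, hθ]
    have h1 : (Polynomial.evalRingHom (0 : L)).comp Polynomial.C = RingHom.id L := by
      ext x; simp
    simp only [F₁, map_add, map_mul, map_C, map_map, h1]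
    have h3 : (Polynomial.evalRingHom (0 : L)) Polynomial.X = 0 := by simp
    rw [h3, C_0, zero_mul, zero_add, MvPolynomial.map_id]
    exact hdeg c

end Pool.Agent.U8.OD
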