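import Pool.Agent.U8.OD.Local2

set_option autoImplicit false
set_option linter.all false

open MvPolynomial

namespace Pool.Agent.U8.OD

section poly

variable {m n : ℕ} {R : Type*} [CommRing R]

/-- the form of degree `n` with given coefficients -/
noncomputable def poly (x : Idx m n → R) : MvPolynomial (Fin (m + 1)) R :=
  ∑ v : Idx m n, monomial (v : Fin (m + 1) →₀ ℕ) (x v)

lemma mem_idx {a : Fin (m + 1) →₀ ℕ} :
    a ∈ (Finset.univ : Finset (Fin (m + 1))).finsuppAntidiag n ↔ a.degree = n := by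
  rw [Finset.mem_finsuppAntidiag, Finsupp.degree_eq_sum]
  simp

lemma poly_homog (x : Idx m n → R) : (poly x).IsHomogeneous n := by
  refine IsHomogeneous.sum _ _ _ fun v _ => ?_
  exact isHomogeneous_monomial _ (mem_idx.1 v.2)

lemma coeff_poly (x : Idx m n → R) (v : Idx m n) : coeff (v : Fin (m + 1) →₀ ℕ) (poly x) = x v := by
  classical
  rw [poly, coeff_sum, Finset.sum_eq_single v]
  · rw [coeff_monomial, if_pos rfl]
  · intro w _ hw
    rw [coeff_monomial, if_neg]
    intro h
    exact hw (Subtype.ext h)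
  · intro h; exact absurd (Finset.mem_univ _) h

lemma homog_eq_poly {P : MvPolynomial (Fin (m + 1)) R} (hP : P.IsHomogeneous n) :
    P = poly fun v : Idx m n => coeff (v : Fin (m + 1) →₀ ℕ) P := by
  ext a
  by_cases h : a.degree = n
  · exact (coeff_poly (fun v : Idx m n => coeff (v : Fin (m + 1) →₀ ℕ) P) ⟨a, mem_idx.2 h⟩).symm
  · rw [hP.coeff_eq_zero h, (poly_homog _).coeff_eq_zero h]

lemma eval_poly (x : Idx m n → R) (y : Fin (m + 1) → R) :
    eval y (poly x) = ∑ v : Idx m n, x v * ∏ i, y i ^ (v : Fin (m + 1) →₀ ℕ) i := by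
  rw [poly, map_sum]
  refine Finset.sum_congr rfl fun v _ => ?_
  rw [eval_monomial, Finsupp.prod_fintype _ _ (fun i => by simp)]

lemma hw_mulVec (p : ℕ) (F : MvPolynomial (Fin (m + 1)) R) (x : Idx m n → R) (u : Idx m n) :
    (hw p n F).mulVec x u = coeff (p • (u : Fin (m + 1) →₀ ℕ) + kap m p) (poly x * F ^ (p - 1)) := by
  rw [poly, Finset.sum_mul, coeff_sum, Matrix.mulVec, dotProduct]
  refine Finset.sum_congr rfl fun v _ => ?_
  rw [hw, Matrix.of_apply, mul_comm, ← coeff_C_mul, ← mul_assoc, C_mul_monomial, mul_one]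

end poly

section sing

variable {m n : ℕ} {K : Type*} [Field K] {p : ℕ}

lemma coeff_off (hp : p.Prime) {F P : MvPolynomial (Fin (m + 1)) K}
    (hF : F.IsHomogeneous (m + n + 1)) (hP : P.IsHomogeneous n)
    (u : Fin (m + 1) →₀ ℕ) (hu : u.degree ≠ n) :
    coeff (p • u + kap m p) (P * F ^ (p - 1)) = 0 := by
  have h1 : (P * F ^ (p - 1)).IsHomogeneous (n + (m + n + 1) * (p - 1)) := hP.mul (hF.pow _)
  refine h1.coeff_eq_zero ?_
  have h2 : (p • u + kap m p).degree = p * u.degree + (m + 1) * (p - 1) := by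
    simp only [Finsupp.degree_eq_sum, Finsupp.add_apply, Finsupp.smul_apply, smul_eq_mul, kap_apply,
      Finset.sum_add_distrib, ← Finset.mul_sum]
    simp
  rw [h2]
  obtain ⟨q, rfl⟩ : ∃ q, p = q + 1 := ⟨p - 1, by have := hp.pos; omega⟩
  simp only [Nat.add_sub_cancel]
  intro h
  apply hu
  have h3 : (q + 1) * u.degree = (q + 1) * n := by
    have : n + (m + n + 1) * q = (q + 1) * n + (m + 1) * q := by ring
    omega
  exact Nat.eq_of_mul_eq_mul_left (Nat.succ_pos q) h3

lemma sing_iff (hp : p.Prime) {F : MvPolynomial (Fin (m + 1)) K}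
    (hF : F.IsHomogeneous (m + n + 1)) :
    (hw p n F).det = 0 ↔ ∃ P : MvPolynomial (Fin (m + 1)) K, P.IsHomogeneous n ∧ P ≠ 0 ∧
      ∀ u, coeff (p • u + kap m p) (P * F ^ (p - 1)) = 0 := by
  rw [← Matrix.exists_mulVec_eq_zero_iff]
  constructor
  · rintro ⟨x, hx, h⟩
    refine ⟨poly x, poly_homog x, ?_, fun u => ?_⟩
    · intro h0
      apply hx
      ext v
      rw [← coeff_poly x v, h0, coeff_zero]; rfl
    · by_cases hu : u.degree = n
      · have h1 := congrFun h ⟨u, mem_idx.2 hu⟩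
        rw [hw_mulVec] at h1
        exact h1
      · exact coeff_off hp hF (poly_homog x) u hu
  · rintro ⟨P, hP, hP0, h⟩
    refine ⟨fun v => coeff (v : Fin (m + 1) →₀ ℕ) P, ?_, ?_⟩
    · intro h0
      apply hP0
      rw [homog_eq_poly hP]
      have : (fun v : Idx m n => coeff (v : Fin (m + 1) →₀ ℕ) P) = 0 := h0
      rw [this]
      simp [poly]
    · ext u
      rw [hw_mulVec, ← homog_eq_poly hP]
      exact h _

/-- projectively equivalent hypersurfaces -/
lemma sing_transfer (hp : p.Prime) [CharP K p] {F F₀ : MvPolynomial (Fin (m + 1)) K}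
    (hF : F.IsHomogeneous (m + n + 1)) {h h' : Matrix (Fin (m + 1)) (Fin (m + 1)) K}
    (hh : h * h' = 1) (l : K) (hF₀ : F₀ = C l * subst h F)
    (hs : (hw p n F).det = 0) : (hw p n F₀).det = 0 := by
  have hF₀h : F₀.IsHomogeneous (m + n + 1) := by
    rw [hF₀]
    exact (subst_homog h hF).C_mul l
  rw [sing_iff hp hF] at hs
  rw [sing_iff hp hF₀h]
  obtain ⟨P, hP, hP0, hU⟩ := hs
  refine ⟨subst h P, subst_homog h hP, ?_, fun u => ?_⟩
  · intro h0
    apply hP0
    have h1 : subst h' (subst h P) = P := by rw [subst_subst, hh, subst_one]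
    rw [← h1, h0, map_zero]
  · have h1 := cartier_subst hp (CharP.cast_eq_zero K p) hh (P * F ^ (p - 1)) hU u
    rw [map_mul, map_pow] at h1
    rw [hF₀, mul_pow, ← map_pow, mul_left_comm, coeff_C_mul, h1, mul_zero]

end sing

/-- crossing points, all data in the ring `R` -/
structure Dat (m n : ℕ) (R : Type*) [CommRing R] (G : MvPolynomial (Fin (m + 1)) R)
    (J : Type*) [Fintype J] where
  g : J → Matrix (Fin (m + 1)) (Fin (m + 1)) R
  g' : J → Matrix (Fin (m + 1)) (Fin (m + 1)) R
  c : J → R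
  c' : J → R
  f : Idx m n → J → R
  w : J → Fin m → ℕ
  hg : ∀ j, g j * g' j = 1
  hc : ∀ j, c j * c' j = 1
  hG : ∀ j, ∀ a : Fin (m + 1) →₀ ℕ, ∑ i : Fin m, w j i * a i.succ ≤ ∑ i, w j i →
      coeff a (subst (g j) G) = if a = expo m n then c j else 0
  hf : ∀ v w : Idx m n, ∑ j, f v j * ∏ i, (g j i 0) ^ ((w : Fin (m + 1) →₀ ℕ) i) =
      if v = w then 1 else 0

/-- base change of the data -/
def Dat.map {m n : ℕ} {R S : Type*} [CommRing R] [CommRing S] {G : MvPolynomial (Fin (m + 1)) R}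
    {J : Type*} [Fintype J] (D : Dat m n R G J) (π : R →+* S) :
    Dat m n S (MvPolynomial.map π G) J where
  g j := (D.g j).map π
  g' j := (D.g' j).map π
  c j := π (D.c j)
  c' j := π (D.c' j)
  f v j := π (D.f v j)
  w := D.w
  hg j := by rw [← Matrix.map_mul, D.hg j]; simp
  hc j := by rw [← map_mul, D.hc j, map_one]
  hG j a ha := by
    rw [subst_map, coeff_map, D.hG j a ha]
    split_ifs <;> simp
  hf v w := by
    have := congrArg π (D.hf v w)
    rw [map_sum] at this
    simp only [map_mul, map_prod, map_pow] at this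
    simp only [Matrix.map_apply]
    rw [this]
    split_ifs <;> simp

/-- the Hasse-Witt matrix of a totally degenerate hypersurface is invertible -/
theorem Dat.det_ne {m n : ℕ} {K : Type*} [Field K] {p : ℕ} (hp : p.Prime) [CharP K p]
    {G : MvPolynomial (Fin (m + 1)) K} (hGh : G.IsHomogeneous (m + n + 1))
    {J : Type*} [Fintype J] (D : Dat m n K G J) : (hw p n G).det ≠ 0 := by
  intro hs
  rw [sing_iff hp hGh] at hs
  obtain ⟨P, hP, hP0, hU⟩ := hs
  have hev : ∀ j, eval (fun i => D.g j i 0) P = 0 := by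
    intro j
    have h1 := cartier_subst hp (CharP.cast_eq_zero K p) (D.hg j) (P * G ^ (p - 1)) hU
      (Finsupp.single 0 n)
    rw [map_mul, map_pow, coeff_local hp (D.hG j), coeff_axis _ hP] at h1
    have hc0 : D.c j ≠ 0 := left_ne_zero_of_mul_eq_one (D.hc j)
    exact (mul_eq_zero.1 h1).resolve_right (pow_ne_zero _ hc0)
  apply hP0
  rw [homog_eq_poly hP] at hev ⊢
  set x : Idx m n → K := fun v => coeff (v : Fin (m + 1) →₀ ℕ) P with hx
  have hx0 : x = 0 := by
    ext v
    have h1 : ∑ j, D.f v j * eval (fun i => D.g j i 0) (poly x) = 0 :=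
      Finset.sum_eq_zero fun j _ => by rw [hev j, mul_zero]
    simp only [eval_poly, Finset.mul_sum] at h1
    rw [Finset.sum_comm] at h1
    have h2 : ∀ w : Idx m n, ∑ j, D.f v j * (x w * ∏ i, D.g j i 0 ^ (w : Fin (m + 1) →₀ ℕ) i) =
        x w * if v = w then 1 else 0 := by
      intro w
      rw [← D.hf v w, Finset.mul_sum]
      refine Finset.sum_congr rfl fun j _ => ?_
      ring
    simp only [h2] at h1
    simpa using h1
  rw [hx0]
  simp [poly]

end Pool.Agent.U8.OD
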